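import Pool.Agent.MP0a1886.Largest3

/-!
# The largest irreducible factor of a random polynomial over `F_p`

For every prime `p` and every law `μ` on `F_p` that is not a point mass, with `M_n` the largest
degree of an irreducible factor of `f_n = sum of ε_i x^i` (iid `ε_i`, `i ≤ n`):
`P(M_n ≤ m) ≤ C * exp (-c * min (n / m) (sqrt n))` and `P(M_n ≥ n - m) ≤ C * m / n` for all
`1 ≤ m ≤ n`. So `M_n / n` is tight in the open interval `(0, 1)`.
-/

set_option autoImplicit false
open Polynomial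

namespace Pool.Agent.Results.MP_0a1886_pr.LargestFactor

/-- The probability, when `ε_0, ..., ε_n` are independent with law `μ`, that the polynomial
`ε_0 + ε_1 X + ... + ε_n X^n` satisfies `E`. -/
noncomputable def probIID {p : ℕ} [Fact p.Prime] (μ : ZMod p → ℝ) (n : ℕ)
    (E : (ZMod p)[X] → Prop) : ℝ := by
  classical
  exact ∑ ε : Fin (n + 1) → ZMod p,
    if E (∑ i : Fin (n + 1), C (ε i) * X ^ (i : ℕ)) then ∏ i, μ (ε i) else 0

/-- The largest degree of an irreducible factor of `f` (zero if `f` is constant, in particular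
if `f = 0`). -/
noncomputable def maxDeg {p : ℕ} [Fact p.Prime] (f : (ZMod p)[X]) : ℕ :=
  sSup {d : ℕ | f ≠ 0 ∧ ∃ P : (ZMod p)[X], Irreducible P ∧ P ∣ f ∧ P.natDegree = d}

open Pool.Agent.MP0a1886

lemma probIID_eq {p : ℕ} [Fact p.Prime] (μ : ZMod p → ℝ) (n : ℕ) (E : (ZMod p)[X] → Prop) :
    probIID μ n E = Pr μ n E := by
  classical
  rw [Pr_eq]
  unfold probIID
  apply Finset.sum_congr rfl
  intro ε _
  congr

lemma maxDeg_bdd {p : ℕ} [Fact p.Prime] (f : (ZMod p)[X]) :
    BddAbove {d : ℕ | f ≠ 0 ∧ ∃ P : (ZMod p)[X], Irreducible P ∧ P ∣ f ∧ P.natDegree = d} := by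
  refine ⟨f.natDegree, ?_⟩
  rintro d ⟨hf, P, _, hPf, rfl⟩
  exact Polynomial.natDegree_le_of_dvd hPf hf

lemma le_maxDeg {p : ℕ} [Fact p.Prime] {f P : (ZMod p)[X]} (hf : f ≠ 0) (hP : Irreducible P)
    (hPf : P ∣ f) : P.natDegree ≤ maxDeg f :=
  le_csSup (maxDeg_bdd f) ⟨hf, P, hP, hPf, rfl⟩

lemma exists_of_maxDeg_pos {p : ℕ} [Fact p.Prime] {f : (ZMod p)[X]} (h : 0 < maxDeg f) :
    f ≠ 0 ∧ ∃ P : (ZMod p)[X], Irreducible P ∧ P ∣ f ∧ P.natDegree = maxDeg f := by
  have hne : {d : ℕ | f ≠ 0 ∧ ∃ P : (ZMod p)[X], Irreducible P ∧ P ∣ f ∧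
      P.natDegree = d}.Nonempty := by
    rw [Set.nonempty_iff_ne_empty]
    intro h0
    unfold maxDeg at h
    rw [h0] at h
    simp at h
  exact Nat.sSup_mem hne (maxDeg_bdd f)

/-- For every prime `p` and every law `μ` on `F_p` that is not a point mass there are `C, c > 0`
such that for all `1 ≤ m ≤ n`: the probability that all irreducible factors of `f_n` have degree
at most `m` is at most `C * exp (-c * min (n / m) (sqrt n))`, and the probability that `f_n` has
an irreducible factor of degree at least `n - m` is at most `C * m / n`. -/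
theorem result (p : ℕ) [Fact p.Prime] (μ : ZMod p → ℝ) (h0 : ∀ a, 0 ≤ μ a)
    (h1 : ∑ a, μ a = 1) (hlt : ∀ a, μ a < 1) :
    ∃ C c : ℝ, 0 < C ∧ 0 < c ∧ ∀ n m : ℕ, 1 ≤ m → m ≤ n →
      probIID μ n (fun f => maxDeg f ≤ m) ≤
        C * Real.exp (-(c * min ((n : ℝ) / m) (Real.sqrt n))) ∧
      probIID μ n (fun f => n ≤ maxDeg f + m) ≤ C * (m / n) := by
  obtain ⟨C1, c, hC1, hc, hA⟩ := smooth_rare μ h0 h1 hlt
  obtain ⟨C2, hC2, hB⟩ := big_rare μ h0 h1 hlt
  refine ⟨C1 + C2 + 1, c, by positivity, hc, ?_⟩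
  intro n m hm hmn
  have hm0 : (0 : ℝ) < m := by exact_mod_cast hm
  have hn0 : (0 : ℝ) < n := by exact_mod_cast (hm.trans hmn)
  constructor
  · rw [probIID_eq]
    have h2 : Pr μ n (fun f => maxDeg f ≤ m) ≤ Pr μ n (fun f => f = 0 ∨
        ∀ P : (ZMod p)[X], Irreducible P → P ∣ f → P.natDegree ≤ m) := by
      apply Pr_mono μ h0
      intro ε hε
      by_cases hf : rpoly n ε = 0
      · exact Or.inl hf
      · right
        intro P hP hPf
        exact (le_maxDeg hf hP hPf).trans hε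
    refine h2.trans ((hA n m hm hmn).trans ?_)
    apply mul_le_mul_of_nonneg_right _ (Real.exp_pos _).le
    linarith
  · rw [probIID_eq]
    rcases eq_or_lt_of_le hmn with h3 | h3
    · refine (Pr_le_one μ h0 h1 n _).trans ?_
      have h4 : (m : ℝ) / n = 1 := by
        rw [h3]; exact div_self hn0.ne'
      rw [h4]
      linarith
    · have h2 : Pr μ n (fun f => n ≤ maxDeg f + m) ≤ Pr μ n (fun f => f ≠ 0 ∧
          ∃ P : (ZMod p)[X], Irreducible P ∧ P ∣ f ∧ n ≤ P.natDegree + m) := by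
        apply Pr_mono μ h0
        intro ε hε
        obtain ⟨hf, P, hP, hPf, hPd⟩ := exists_of_maxDeg_pos (f := rpoly n ε) (by omega)
        exact ⟨hf, P, hP, hPf, by omega⟩
      refine h2.trans ((hB n m hm h3).trans ?_)
      apply mul_le_mul_of_nonneg_right _ (by positivity)
      linarith

end Pool.Agent.Results.MP_0a1886_pr.LargestFactor
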