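import Pool.Agent.MP0a1886.Min.Ent15
import Pool.Agent.MP0a1886.Min.Sm5
import Pool.Agent.MP0a1886.Min.L1c
import Pool.Agent.MP0a1886.Var

/-!
# The irreducible factors of degree proportional to `n`, for every coefficient law

For every prime `p` and every law `μ` on `F_p` that is not a point mass, with `K = H(μ) / 2` half the
entropy of `μ` in base `p`: the degrees of the irreducible factors of `f_n`, divided by `n`, have in
the limit the correlations of the Poisson-Dirichlet process in the region `u_1 + ... + u_r < K`; the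
largest degree has the conjectured law on `[1/2, K)` (if `K > 1/2`) and satisfies
`limsup P(M_n ≤ y n) ≤ y ^ r / ((1 - y) ... (1 - (r - 1) y))` for `r y < K`, an upper bound
`exp (- (K + o(1)) (1 / y) log (1 / y))` for `y → 0`. If `μ = ∑ m_b ν_b` is a convex combination of
laws then all this holds for `K = ∑ m_b κ_b` if for every `b` either `κ_b ≤ H(ν_b) / 2` or there is
a law `φ` with real Fourier coefficients `φ^(c) ≥ |ν_b^(c)|` and `φ(0) ≤ p ^ (- κ_b)`. It also holds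
for `K = ∑ m_b κ_b` if `K > 1/2` and `∑_c |ν_b^(c)| ≤ p ^ (1 - κ_b)` for every `b`; in particular, for
every `K > 1/2` with `1 + (p / 2) (1 + log p) ∑_a |μ(a + b) - μ(a)| ≤ p ^ (1 - K)` for some `b ≠ 0`
(for `1 + (p / N) (1 + log p) ≤ p ^ (1 - K)` if `μ` is uniform on an arithmetic progression of `N`
residues).
-/

set_option autoImplicit false
open Polynomial Filter

namespace Pool.Agent.Results.MP_0a1886_pr.MediumFactors

/-- The probability, when `ε_0, ..., ε_n` are independent with law `μ`, that the polynomial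
`ε_0 + ε_1 X + ... + ε_n X^n` satisfies `E`. -/
noncomputable def probIID {p : ℕ} [Fact p.Prime] (μ : ZMod p → ℝ) (n : ℕ)
    (E : (ZMod p)[X] → Prop) : ℝ := by
  classical
  exact ∑ ε : Fin (n + 1) → ZMod p,
    if E (∑ i : Fin (n + 1), C (ε i) * X ^ (i : ℕ)) then ∏ i, μ (ε i) else 0

/-- The expectation, when `ε_0, ..., ε_n` are independent with law `μ`, of the value of `F` at the
polynomial `ε_0 + ε_1 X + ... + ε_n X^n`. -/
noncomputable def expIID {p : ℕ} [Fact p.Prime] (μ : ZMod p → ℝ) (n : ℕ)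
    (F : (ZMod p)[X] → ℝ) : ℝ :=
  ∑ ε : Fin (n + 1) → ZMod p, (∏ i, μ (ε i)) * F (∑ i : Fin (n + 1), C (ε i) * X ^ (i : ℕ))

/-- The largest degree of an irreducible factor of `f` (zero if `f` is constant, in particular
if `f = 0`). -/
noncomputable def maxDeg {p : ℕ} [Fact p.Prime] (f : (ZMod p)[X]) : ℕ :=
  sSup {d : ℕ | f ≠ 0 ∧ ∃ P : (ZMod p)[X], Irreducible P ∧ P ∣ f ∧ P.natDegree = d}

/-- The number of monic irreducible factors of `f` with degree in `(s, t]` (zero if `f = 0`). -/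
noncomputable def numFac {p : ℕ} [Fact p.Prime] (s t : ℝ) (f : (ZMod p)[X]) : ℝ := by
  classical
  exact if f = 0 then 0 else (Set.ncard {P : (ZMod p)[X] | P.Monic ∧ Irreducible P ∧ P ∣ f ∧
    s < P.natDegree ∧ (P.natDegree : ℝ) ≤ t} : ℝ)

/-- The Fourier coefficient `ν^(c)`, the sum of `ν(a) e(a c / p)`. -/
noncomputable def fourier {p : ℕ} [Fact p.Prime] (ν : ZMod p → ℝ) (c : ZMod p) : ℂ :=
  ∑ a : ZMod p, (ν a : ℂ) * ZMod.stdAddChar (a * c)

/-- `φ` is a law on `F_p` with real Fourier coefficients `φ^(c) ≥ |ν^(c)|`. -/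
def Dominates {p : ℕ} [Fact p.Prime] (φ ν : ZMod p → ℝ) : Prop :=
  (∀ a, 0 ≤ φ a) ∧ ∑ a, φ a = 1 ∧ ∀ c, (fourier φ c).im = 0 ∧ ‖fourier ν c‖ ≤ (fourier φ c).re

/-- The entropy of `ν` in base `p`. -/
noncomputable def entropy {p : ℕ} [Fact p.Prime] (ν : ZMod p → ℝ) : ℝ :=
  (-∑ a : ZMod p, ν a * Real.log (ν a)) / Real.log p

/-- The correlations of the degrees of the irreducible factors, divided by `n`, converge to those of
the Poisson-Dirichlet process, whose correlation functions are `1 / (u_1 ... u_r)` for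
`u_1 + ... + u_r < 1`, in the region `u_1 + ... + u_r < K`: for disjoint intervals `(x_i, y_i]` with
`y_1 + ... + y_r < K` the expectation of the product of the numbers of factors with degree in
`(x_i n, y_i n]` tends to the product of the `log (y_i / x_i)`. -/
def HasCorrelations (p : ℕ) [Fact p.Prime] (μ : ZMod p → ℝ) (K : ℝ) : Prop :=
  ∀ (r : ℕ), 0 < r → ∀ x y : Fin r → ℝ, (∀ i, 0 < x i) → (∀ i, x i < y i) →
    (∀ i j, i ≠ j → y i ≤ x j ∨ y j ≤ x i) → ∑ i, y i < K →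
    Tendsto (fun n : ℕ => expIID μ n (fun f => ∏ i, numFac (x i * n) (y i * n) f)) atTop
      (nhds (∏ i, Real.log (y i / x i)))

/-- The law of `M_n / n` converges to the law of `L_1` on the interval `[1/2, K)`: for
`1/2 ≤ x < y < K` the probability of `x n < M_n ≤ y n` tends to `log (y / x)`. -/
def HasLargeFactorLaw (p : ℕ) [Fact p.Prime] (μ : ZMod p → ℝ) (K : ℝ) : Prop :=
  ∀ x y : ℝ, 1 / 2 ≤ x → x < y → y < K →
    Tendsto (fun n : ℕ => probIID μ n (fun f => x * n < maxDeg f ∧ (maxDeg f : ℝ) ≤ y * n)) atTop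
      (nhds (Real.log (y / x)))

/-- An upper bound for the probability that all degrees are small: for `r ≥ 1`, `y > 0` and
`r y < K` the limes superior of the probability of `M_n ≤ y n` is at most
`y ^ r / ((1 - y) (1 - 2 y) ... (1 - (r - 1) y))`. -/
def HasSmallFactorBound (p : ℕ) [Fact p.Prime] (μ : ZMod p → ℝ) (K : ℝ) : Prop :=
  ∀ (r : ℕ) (y : ℝ), 0 < r → 0 < y → r * y < K → ∀ η : ℝ, 0 < η →
    ∀ᶠ n : ℕ in atTop, probIID μ n (fun f => (maxDeg f : ℝ) ≤ y * n) ≤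
      y ^ r / ∏ j ∈ Finset.range r, (1 - j * y) + η

/-- The three statements for `K`. -/
def HoldsBelow (p : ℕ) [Fact p.Prime] (μ : ZMod p → ℝ) (K : ℝ) : Prop :=
  HasCorrelations p μ K ∧ HasLargeFactorLaw p μ K ∧ HasSmallFactorBound p μ K

open Pool.Agent.MP0a1886

lemma probIID_eq {p : ℕ} [Fact p.Prime] (μ : ZMod p → ℝ) (n : ℕ) (E : (ZMod p)[X] → Prop) :
    probIID μ n E = Pr μ n E := by
  classical
  rw [Pr_eq]
  unfold probIID
  apply Finset.sum_congr rfl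
  intro ε _
  congr

lemma expIID_eq {p : ℕ} [Fact p.Prime] (μ : ZMod p → ℝ) (n : ℕ) (F : (ZMod p)[X] → ℝ) :
    expIID μ n F = Ex μ n F := by
  unfold expIID Ex wt rpoly lowPoly
  rfl

lemma maxDeg_bdd {p : ℕ} [Fact p.Prime] (f : (ZMod p)[X]) :
    BddAbove {d : ℕ | f ≠ 0 ∧ ∃ P : (ZMod p)[X], Irreducible P ∧ P ∣ f ∧ P.natDegree = d} := by
  refine ⟨f.natDegree, ?_⟩
  rintro d ⟨hf, P, _, hPf, rfl⟩
  exact Polynomial.natDegree_le_of_dvd hPf hf

lemma le_maxDeg {p : ℕ} [Fact p.Prime] {f P : (ZMod p)[X]} (hf : f ≠ 0) (hP : Irreducible P)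
    (hPf : P ∣ f) : P.natDegree ≤ maxDeg f :=
  le_csSup (maxDeg_bdd f) ⟨hf, P, hP, hPf, rfl⟩

lemma exists_of_maxDeg_pos {p : ℕ} [Fact p.Prime] {f : (ZMod p)[X]} (h : 0 < maxDeg f) :
    f ≠ 0 ∧ ∃ P : (ZMod p)[X], Irreducible P ∧ P ∣ f ∧ P.natDegree = maxDeg f := by
  have hne : {d : ℕ | f ≠ 0 ∧ ∃ P : (ZMod p)[X], Irreducible P ∧ P ∣ f ∧
      P.natDegree = d}.Nonempty := by
    rw [Set.nonempty_iff_ne_empty]
    intro h0
    unfold maxDeg at h
    rw [h0] at h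
    simp at h
  exact Nat.sSup_mem hne (maxDeg_bdd f)

lemma numFac_eq {p : ℕ} [Fact p.Prime] {s t : ℝ} (hs : 0 ≤ s) (ht : 0 ≤ t) (f : (ZMod p)[X]) :
    numFac s t f = cnt ⌊s⌋₊ ⌊t⌋₊ f := by
  classical
  unfold numFac cnt
  split_ifs with hf
  · rfl
  · have h1 : {P : (ZMod p)[X] | P.Monic ∧ Irreducible P ∧ P ∣ f ∧ s < P.natDegree ∧
        (P.natDegree : ℝ) ≤ t} = (((irI p ⌊s⌋₊ ⌊t⌋₊).filter (fun P => P ∣ f) :
          Finset (ZMod p)[X]) : Set (ZMod p)[X]) := by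
      ext P
      rw [Set.mem_ofPred_eq, Finset.mem_coe, Finset.mem_filter, mem_irI, Nat.floor_lt hs,
        Nat.le_floor_iff ht]
      tauto
    rw [h1, Set.ncard_coe_finset]

lemma fourier_phi {p : ℕ} [Fact p.Prime] (ρ : ℝ) (c : ZMod p) :
    fourier (phi p ρ) c = if c = 0 then 1 else (ρ : ℂ) := muhat_phi ρ c

lemma corr_res {p : ℕ} [Fact p.Prime] (μ : ZMod p → ℝ) (K : ℝ) (hlev : Level μ K) :
    HasCorrelations p μ K := by
  intro r hr x y hx hxy hd hs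
  refine (corr_tendsto μ K hlev hr x y hx hxy hd hs).congr fun n => ?_
  rw [expIID_eq]
  congr 1
  funext f
  apply Finset.prod_congr rfl
  intro i _
  have hn0 : (0 : ℝ) ≤ n := Nat.cast_nonneg n
  rw [numFac_eq (mul_nonneg (hx i).le hn0) (mul_nonneg ((hx i).trans (hxy i)).le hn0)]

lemma large_res {p : ℕ} [Fact p.Prime] (μ : ZMod p → ℝ) (K : ℝ) (hlev : Level μ K) :
    HasLargeFactorLaw p μ K := by
  intro x y hx hxy hy
  refine (big_tendsto μ K hlev maxDeg (fun f hf P hP hPf => le_maxDeg hf hP hPf)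
    (fun f hf => exists_of_maxDeg_pos hf) x y hx hxy hy).congr fun n => ?_
  rw [probIID_eq]

lemma small_res {p : ℕ} [Fact p.Prime] (μ : ZMod p → ℝ) (h0 : ∀ a, 0 ≤ μ a)
    (h1 : ∑ a, μ a = 1) (hlt : ∀ a, μ a < 1) (K : ℝ) (hlev : Level μ K) (hK : K ≤ 1) :
    HasSmallFactorBound p μ K := by
  intro r y hr hy hry η hη
  have hr1 : ∀ j : ℕ, j < r → 0 < 1 - j * y := by
    intro j hj
    have h2 : (j : ℝ) * y ≤ r * y := by
      apply mul_le_mul_of_nonneg_right _ hy.le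
      exact_mod_cast hj.le
    linarith
  filter_upwards [smooth_limsup μ h0 h1 hlt K hlev maxDeg
    (fun f hf P hP hPf => le_maxDeg hf hP hPf) r hr y hy hry hr1 η hη] with n hn
  rw [probIID_eq]
  exact hn

lemma entropy_eq {p : ℕ} [Fact p.Prime] (ν : ZMod p → ℝ) : entropy ν = ent ν := by
  unfold entropy ent
  rw [← Finset.sum_neg_distrib, Finset.sum_div]
  apply Finset.sum_congr rfl
  intro a _
  ring

lemma entropy_pos {p : ℕ} [Fact p.Prime] (μ : ZMod p → ℝ) (h0 : ∀ a, 0 ≤ μ a)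
    (h1 : ∑ a, μ a = 1) (hlt : ∀ a, μ a < 1) : 0 < entropy μ := by
  have hp1 : (1 : ℝ) < p := by exact_mod_cast (Fact.out : p.Prime).one_lt
  have h2 : ∀ a, 0 ≤ -(μ a * Real.log (μ a)) := by
    intro a
    have h3 := Real.log_nonpos (h0 a) (hlt a).le
    have h4 := mul_nonneg (h0 a) (neg_nonneg.2 h3)
    linarith
  obtain ⟨a, ha⟩ : ∃ a, 0 < μ a := by
    by_contra h
    push Not at h
    have h3 : ∑ a, μ a = 0 := Finset.sum_eq_zero fun a _ => le_antisymm (h a) (h0 a)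
    rw [h1] at h3
    exact one_ne_zero h3
  unfold entropy
  apply div_pos _ (Real.log_pos hp1)
  rw [← Finset.sum_neg_distrib]
  apply Finset.sum_pos' (fun a _ => h2 a)
  refine ⟨a, Finset.mem_univ a, ?_⟩
  have h3 := mul_pos ha (neg_pos.2 (Real.log_neg ha (hlt a)))
  linarith

lemma fourier_point {p : ℕ} [Fact p.Prime] (c : ZMod p) :
    fourier (fun a : ZMod p => if a = 0 then (1 : ℝ) else 0) c = ((1 : ℝ) : ℂ) := by
  unfold fourier
  rw [Finset.sum_eq_single (0 : ZMod p)]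
  · simp
  · intro b _ hb
    simp [hb]
  · simp

lemma level_entropy {p : ℕ} [Fact p.Prime] (μ : ZMod p → ℝ) (h0 : ∀ a, 0 ≤ μ a)
    (h1 : ∑ a, μ a = 1) (hlt : ∀ a, μ a < 1) {k : ℕ} (m : Fin k → ℝ) (ν : Fin k → ZMod p → ℝ)
    (κ : Fin k → ℝ) (hm0 : ∀ b, 0 ≤ m b) (hν0 : ∀ b a, 0 ≤ ν b a) (hν1 : ∀ b, ∑ a, ν b a = 1)
    (hmix : ∀ a, μ a = ∑ b, m b * ν b a)
    (hκ : ∀ b, κ b ≤ entropy (ν b) / 2 ∨
      ∃ φ : ZMod p → ℝ, Dominates φ (ν b) ∧ φ 0 ≤ (p : ℝ) ^ (-κ b)) :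
    Level μ (∑ b, m b * κ b) := by
  have hex : ∀ b, ∃ (D : Bool) (φ Φ : ZMod p → ℝ), (∀ a, 0 ≤ φ a) ∧ ∑ a, φ a = 1 ∧
      (∀ c, fourier φ c = (Φ c : ℂ)) ∧ (∀ c, ‖fourier (ν b) c‖ ≤ Φ c) ∧
      (D = true → φ 0 ≤ (p : ℝ) ^ (-κ b)) ∧ (D = false → κ b ≤ ent (ν b) / 2) := by
    intro b
    rcases hκ b with h | ⟨φ, hφ, hφκ⟩
    · refine ⟨false, fun a => if a = 0 then 1 else 0, fun _ => 1, ?_, ?_, ?_, ?_, ?_, ?_⟩
      · intro a
        beta_reduce
        split_ifs <;> norm_num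
      · simp
      · exact fun c => fourier_point c
      · intro c
        have h2 := norm_muhat_le' (ν b) (hν0 b) c
        rw [hν1 b] at h2
        exact h2
      · intro h2
        exact absurd h2 (by decide)
      · intro _
        rw [← entropy_eq]
        exact h
    · refine ⟨true, φ, fun c => (fourier φ c).re, hφ.1, hφ.2.1, ?_, ?_, ?_, ?_⟩
      · exact fun c => Complex.ext rfl (hφ.2.2 c).1
      · exact fun c => (hφ.2.2 c).2
      · exact fun _ => hφκ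
      · intro h2
        exact absurd h2 (by decide)
  choose D φ Φ a1 a2 a3 a4 a5 a6 using hex
  intro y hy ε hε
  exact level_ent0 μ h0 h1 hlt m D ν φ Φ hm0 hν0 hν1 hmix a1 a2 a3 a4 κ a5 a6 y hy ε hε

lemma kappa_le_one {p : ℕ} [Fact p.Prime] (ν : ZMod p → ℝ) (hν0 : ∀ a, 0 ≤ ν a)
    (hν1 : ∑ a, ν a = 1) (κ : ℝ) (hκ : κ ≤ entropy ν / 2 ∨
      ∃ φ : ZMod p → ℝ, Dominates φ ν ∧ φ 0 ≤ (p : ℝ) ^ (-κ)) : κ ≤ 1 := by
  have hp0 : (0 : ℝ) < p := by exact_mod_cast (Fact.out : p.Prime).pos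
  have hp1 : (1 : ℝ) < p := by exact_mod_cast (Fact.out : p.Prime).one_lt
  rcases hκ with h | ⟨φ, ⟨hφ0, hφ1, hφ2⟩, hφκ⟩
  · have h2 := ent_le_one ν hν0 hν1
    rw [← entropy_eq] at h2
    linarith
  · have h3 : ∑ c, (fourier φ c).re = (p : ℝ) * φ 0 := by
      have h4 := congrArg Complex.re (sum_muhat φ)
      rw [Complex.re_sum] at h4
      rw [show (∑ c, (fourier φ c).re) = ∑ c, (muhat φ c).re from rfl, h4]
      simp
    have h5 : (fourier φ 0).re = 1 := by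
      have h6 : fourier φ 0 = 1 := muhat_zero φ hφ1
      rw [h6, Complex.one_re]
    have h7 : 1 ≤ (p : ℝ) * φ 0 := by
      rw [← h3, ← h5]
      exact Finset.single_le_sum (f := fun c => (fourier φ c).re)
        (fun c _ => (norm_nonneg _).trans (hφ2 c).2) (Finset.mem_univ 0)
    by_contra hcon
    push Not at hcon
    have h8 : (p : ℝ) ^ (-κ) < (p : ℝ) ^ (-1 : ℝ) :=
      Real.rpow_lt_rpow_of_exponent_lt hp1 (by linarith)
    rw [Real.rpow_neg_one] at h8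
    have h9 : (p : ℝ) * φ 0 < (p : ℝ) * (p : ℝ)⁻¹ :=
      mul_lt_mul_of_pos_left (lt_of_le_of_lt hφκ h8) hp0
    rw [mul_inv_cancel₀ hp0.ne'] at h9
    linarith

lemma below_res {p : ℕ} [Fact p.Prime] (μ : ZMod p → ℝ) (h0 : ∀ a, 0 ≤ μ a)
    (h1 : ∑ a, μ a = 1) (hlt : ∀ a, μ a < 1) {k : ℕ} (m : Fin k → ℝ) (ν : Fin k → ZMod p → ℝ)
    (κ : Fin k → ℝ) (hm0 : ∀ b, 0 ≤ m b) (hν0 : ∀ b a, 0 ≤ ν b a) (hν1 : ∀ b, ∑ a, ν b a = 1)
    (hmix : ∀ a, μ a = ∑ b, m b * ν b a)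
    (hκ : ∀ b, κ b ≤ entropy (ν b) / 2 ∨
      ∃ φ : ZMod p → ℝ, Dominates φ (ν b) ∧ φ 0 ≤ (p : ℝ) ^ (-κ b)) :
    HoldsBelow p μ (∑ b, m b * κ b) := by
  have hlev := level_entropy μ h0 h1 hlt m ν κ hm0 hν0 hν1 hmix hκ
  have hm1 : ∑ b, m b = 1 := by
    have h2 : ∀ b, ∑ a, m b * ν b a = m b := fun b => by rw [← Finset.mul_sum, hν1 b, mul_one]
    rw [← h1, Finset.sum_congr rfl (fun a _ => hmix a), Finset.sum_comm]
    exact Finset.sum_congr rfl fun b _ => (h2 b).symm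
  have hK : ∑ b, m b * κ b ≤ 1 := by
    rw [← hm1]
    apply Finset.sum_le_sum
    intro b _
    exact mul_le_of_le_one_right (hm0 b) (kappa_le_one (ν b) (hν0 b) (hν1 b) (κ b) (hκ b))
  exact ⟨corr_res μ _ hlev, large_res μ _ hlev, small_res μ h0 h1 hlt _ hlev hK⟩

lemma kappa_le_one' {p : ℕ} [Fact p.Prime] (ν : ZMod p → ℝ) (hν1 : ∑ a, ν a = 1) (κ : ℝ)
    (hκ : ∑ c, ‖fourier ν c‖ ≤ (p : ℝ) ^ (1 - κ)) : κ ≤ 1 := by
  have hp1 : (1 : ℝ) < p := by exact_mod_cast (Fact.out : p.Prime).one_lt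
  have h1 : fourier ν 0 = 1 := muhat_zero ν hν1
  have h2 : ‖fourier ν 0‖ ≤ ∑ c, ‖fourier ν c‖ :=
    Finset.single_le_sum (f := fun c => ‖fourier ν c‖) (fun c _ => norm_nonneg _)
      (Finset.mem_univ 0)
  rw [h1, norm_one] at h2
  by_contra hcon
  push Not at hcon
  have h3 : (p : ℝ) ^ (1 - κ) < 1 := Real.rpow_lt_one_of_one_lt_of_neg hp1 (by linarith)
  linarith

lemma below_sums {p : ℕ} [Fact p.Prime] (μ : ZMod p → ℝ) (h0 : ∀ a, 0 ≤ μ a)
    (h1 : ∑ a, μ a = 1) (hlt : ∀ a, μ a < 1) {k : ℕ} (m : Fin k → ℝ) (ν : Fin k → ZMod p → ℝ)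
    (κ : Fin k → ℝ) (hm0 : ∀ b, 0 ≤ m b) (hν0 : ∀ b a, 0 ≤ ν b a) (hν1 : ∀ b, ∑ a, ν b a = 1)
    (hmix : ∀ a, μ a = ∑ b, m b * ν b a)
    (hκ : ∀ b, ∑ c, ‖fourier (ν b) c‖ ≤ (p : ℝ) ^ (1 - κ b)) (hK : 1 / 2 < ∑ b, m b * κ b) :
    HoldsBelow p μ (∑ b, m b * κ b) := by
  have hlev : Level μ (∑ b, m b * κ b) := level_sums μ h1 m ν hm0 hν0 hν1 hmix κ hκ hK
  have hm1 : ∑ b, m b = 1 := by
    have h2 : ∀ b, ∑ a, m b * ν b a = m b := fun b => by rw [← Finset.mul_sum, hν1 b, mul_one]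
    rw [← h1, Finset.sum_congr rfl (fun a _ => hmix a), Finset.sum_comm]
    exact Finset.sum_congr rfl fun b _ => (h2 b).symm
  have hK1 : ∑ b, m b * κ b ≤ 1 := by
    rw [← hm1]
    apply Finset.sum_le_sum
    intro b _
    exact mul_le_of_le_one_right (hm0 b) (kappa_le_one' (ν b) (hν1 b) (κ b) (hκ b))
  exact ⟨corr_res μ _ hlev, large_res μ _ hlev, small_res μ h0 h1 hlt _ hlev hK1⟩

lemma var_ap {p : ℕ} [Fact p.Prime] (μ : ZMod p → ℝ) (N : ℕ) (a0 d : ZMod p) (hd : d ≠ 0)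
    (hμ : ∀ j : ZMod p, μ (a0 + j * d) = if j.val < N then 1 / (N : ℝ) else 0) :
    ∑ a, |μ (a + d) - μ a| ≤ 2 / N := by
  classical
  have hp1 : 1 < p := (Fact.out : p.Prime).one_lt
  have hinj : Function.Injective (fun j : ZMod p => a0 + j * d) := fun i j h =>
    mul_right_cancel₀ hd (add_left_cancel h)
  have hbij : Function.Bijective (fun j : ZMod p => a0 + j * d) := Finite.injective_iff_bijective.1 hinj
  rw [← hbij.sum_comp (fun a => |μ (a + d) - μ a|)]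
  have hN : (0 : ℝ) ≤ 1 / N := by positivity
  have h1 : ∀ j : ZMod p, |μ (a0 + j * d + d) - μ (a0 + j * d)| ≤
      if j ∈ ({((N - 1 : ℕ) : ZMod p), -1} : Finset (ZMod p)) then 1 / (N : ℝ) else 0 := by
    intro j
    have h2 : a0 + j * d + d = a0 + (j + 1) * d := by ring
    rw [h2, hμ, hμ]
    by_cases hj : j ∈ ({((N - 1 : ℕ) : ZMod p), -1} : Finset (ZMod p))
    · rw [if_pos hj]
      split_ifs
      · rw [sub_self, abs_zero]; exact hN
      · rw [sub_zero, abs_of_nonneg hN]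
      · rw [zero_sub, abs_neg, abs_of_nonneg hN]
      · rw [sub_self, abs_zero]; exact hN
    · rw [if_neg hj]
      rw [Finset.mem_insert, Finset.mem_singleton, not_or] at hj
      have h3 : j.val + 1 < p := by
        have h4 := ZMod.val_lt j
        rcases Nat.lt_or_ge (j.val + 1) p with h5 | h5
        · exact h5
        · exfalso
          apply hj.2
          have h6 : j.val + 1 = p := by omega
          have h7 : ((j.val + 1 : ℕ) : ZMod p) = 0 := by rw [h6, ZMod.natCast_self]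
          rw [Nat.cast_add, ZMod.natCast_zmod_val, Nat.cast_one] at h7
          exact eq_neg_of_add_eq_zero_left h7
      have h4 : (j + 1).val = j.val + 1 := by
        have h5 : j + 1 = ((j.val + 1 : ℕ) : ZMod p) := by
          rw [Nat.cast_add, ZMod.natCast_zmod_val, Nat.cast_one]
        rw [h5, ZMod.val_natCast_of_lt h3]
      have h5 : j.val ≠ N - 1 := by
        intro h6
        apply hj.1
        rw [← h6, ZMod.natCast_zmod_val]
      have h6 : (j + 1).val < N ↔ j.val < N := by rw [h4]; omega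
      simp only [h6, sub_self, abs_zero, le_refl]
  refine (Finset.sum_le_sum fun j _ => h1 j).trans ?_
  rw [Finset.sum_ite_mem, Finset.univ_inter, Finset.sum_const, nsmul_eq_mul]
  have h2 : (({((N - 1 : ℕ) : ZMod p), -1} : Finset (ZMod p)).card : ℝ) ≤ 2 := by
    exact_mod_cast Finset.card_le_two
  calc _ ≤ 2 * (1 / (N : ℝ)) := mul_le_mul_of_nonneg_right h2 hN
    _ = 2 / N := by ring

lemma below_var {p : ℕ} [Fact p.Prime] (μ : ZMod p → ℝ) (h0 : ∀ a, 0 ≤ μ a)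
    (h1 : ∑ a, μ a = 1) (hlt : ∀ a, μ a < 1) (b : ZMod p) (K : ℝ) (hb : b ≠ 0) (hK : 1 / 2 < K)
    (hle : 1 + (∑ a, |μ (a + b) - μ a|) * ((p : ℝ) / 2 * (1 + Real.log p)) ≤ (p : ℝ) ^ (1 - K)) :
    HoldsBelow p μ K := by
  have hsum : ∑ c, ‖fourier μ c‖ ≤ (p : ℝ) ^ (1 - K) := (sum_mw_le μ h1 b hb).trans hle
  have hres := below_sums μ h0 h1 hlt (k := 1) (fun _ => 1) (fun _ => μ) (fun _ => K)
    (fun _ => zero_le_one) (fun _ => h0) (fun _ => h1) (fun a => by simp) (fun _ => hsum)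
    (by simpa using hK)
  simp only [Finset.univ_unique, Finset.sum_singleton, one_mul] at hres
  exact hres

lemma dominates_unif {p : ℕ} [Fact p.Prime] :
    Dominates (fun _ : ZMod p => 1 / (p : ℝ)) (fun _ => 1 / (p : ℝ)) := by
  have hf : (fun _ : ZMod p => 1 / (p : ℝ)) = phi p 0 := by
    funext a
    simp [phi]
  rw [hf]
  refine ⟨phi_nonneg le_rfl zero_le_one, sum_phi 0, fun c => ?_⟩
  rw [fourier_phi]
  split_ifs with hc
  · simp
  · simp

/-- For every prime `p` and every law `μ` on `F_p` that is not a point mass, with `K = H(μ) / 2 > 0`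
half the entropy of `μ` in base `p`: the degrees of the irreducible factors of `f_n`, divided by `n`,
have in the limit the correlations of the Poisson-Dirichlet process in the region
`u_1 + ... + u_r < K`, the law of `M_n / n` converges to the law of `L_1` on `[1/2, K)`, and
`limsup P(M_n ≤ y n) ≤ y ^ r / ((1 - y) ... (1 - (r - 1) y))` for `r y < K`. If `μ = ∑ m_b ν_b` is a
convex combination of laws and for every `b` either `κ_b ≤ H(ν_b) / 2` or there is a law `φ` with real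
Fourier coefficients `φ^(c) ≥ |ν_b^(c)|` and `φ(0) ≤ p ^ (- κ_b)`, then this holds for
`K = ∑ m_b κ_b`. In particular it holds for `K = q + (1 - q) * H(ν) / 2` if
`μ = q * uniform + (1 - q) * ν` with `0 ≤ q ≤ 1`, `ν` a law. It also holds for every `K > 1/2` with
`K = ∑ m_b κ_b`, `∑_c |ν_b^(c)| ≤ p ^ (1 - κ_b)` for every `b`, and, in particular, for every
`K > 1/2` with `1 + (p / 2) (1 + log p) ∑_a |μ(a + b) - μ(a)| ≤ p ^ (1 - K)` for some `b ≠ 0`: for
`1 + (p / N) (1 + log p) ≤ p ^ (1 - K)` if `μ` is uniform on an arithmetic progression of `N`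
residues. -/
theorem result (p : ℕ) [Fact p.Prime] (μ : ZMod p → ℝ) (h0 : ∀ a, 0 ≤ μ a) (h1 : ∑ a, μ a = 1)
    (hlt : ∀ a, μ a < 1) :
    (0 < entropy μ ∧ HoldsBelow p μ (entropy μ / 2)) ∧
    (∀ (k : ℕ) (m κ : Fin k → ℝ) (ν : Fin k → ZMod p → ℝ), (∀ b, 0 ≤ m b) →
      (∀ b a, 0 ≤ ν b a) → (∀ b, ∑ a, ν b a = 1) → (∀ a, μ a = ∑ b, m b * ν b a) →
      (∀ b, κ b ≤ entropy (ν b) / 2 ∨
        ∃ φ : ZMod p → ℝ, Dominates φ (ν b) ∧ φ 0 ≤ (p : ℝ) ^ (-κ b)) →
      HoldsBelow p μ (∑ b, m b * κ b)) ∧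
    (∀ (q : ℝ) (ν : ZMod p → ℝ), 0 ≤ q → q ≤ 1 → (∀ a, 0 ≤ ν a) → ∑ a, ν a = 1 →
      (∀ a, μ a = q / p + (1 - q) * ν a) → HoldsBelow p μ (q + (1 - q) * (entropy ν / 2))) ∧
    (∀ (k : ℕ) (m κ : Fin k → ℝ) (ν : Fin k → ZMod p → ℝ), (∀ b, 0 ≤ m b) →
      (∀ b a, 0 ≤ ν b a) → (∀ b, ∑ a, ν b a = 1) → (∀ a, μ a = ∑ b, m b * ν b a) →
      (∀ b, ∑ c, ‖fourier (ν b) c‖ ≤ (p : ℝ) ^ (1 - κ b)) → 1 / 2 < ∑ b, m b * κ b →
      HoldsBelow p μ (∑ b, m b * κ b)) ∧
    (∀ (b : ZMod p) (K : ℝ), b ≠ 0 → 1 / 2 < K →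
      1 + (∑ a, |μ (a + b) - μ a|) * ((p : ℝ) / 2 * (1 + Real.log p)) ≤ (p : ℝ) ^ (1 - K) →
      HoldsBelow p μ K) ∧
    ∀ (N : ℕ) (a b : ZMod p) (K : ℝ), b ≠ 0 → 1 / 2 < K →
      (∀ j : ZMod p, μ (a + j * b) = if j.val < N then 1 / (N : ℝ) else 0) →
      1 + (p : ℝ) / N * (1 + Real.log p) ≤ (p : ℝ) ^ (1 - K) → HoldsBelow p μ K := by
  refine ⟨⟨entropy_pos μ h0 h1 hlt, ?_⟩, ?_, ?_, ?_, ?_, ?_⟩
  · have hres := below_res μ h0 h1 hlt (k := 1) (fun _ => 1) (fun _ => μ)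
      (fun _ => entropy μ / 2) (fun _ => zero_le_one) (fun _ => h0) (fun _ => h1)
      (fun a => by simp) (fun _ => Or.inl le_rfl)
    simp only [Finset.univ_unique, Finset.sum_singleton, one_mul] at hres
    exact hres
  · intro k m κ ν hm0 hν0 hν1 hmix hκ
    exact below_res μ h0 h1 hlt m ν κ hm0 hν0 hν1 hmix hκ
  · intro q ν hq0 hq1 hν0 hν1 hmix
    have hp0 : (0 : ℝ) < p := by exact_mod_cast (Fact.out : p.Prime).pos
    have hres := below_res μ h0 h1 hlt (k := 2) ![q, 1 - q] ![fun _ => 1 / (p : ℝ), ν]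
      ![1, entropy ν / 2]
      (by
        intro b
        fin_cases b
        · exact hq0
        · exact sub_nonneg.2 hq1)
      (by
        intro b a
        fin_cases b
        · exact (by positivity : (0 : ℝ) ≤ 1 / p)
        · exact hν0 a)
      (by
        intro b
        fin_cases b
        · have h2 : ∑ _a : ZMod p, (1 : ℝ) / p = 1 := by
            rw [Finset.sum_const, Finset.card_univ, ZMod.card, nsmul_eq_mul]
            field_simp
          exact h2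
        · exact hν1)
      (by
        intro a
        rw [Fin.sum_univ_two, hmix a]
        have h2 : q / (p : ℝ) = q * (1 / p) := by ring
        rw [h2]
        rfl)
      (by
        intro b
        fin_cases b
        · refine Or.inr ⟨fun _ => 1 / (p : ℝ), dominates_unif, ?_⟩
          have h2 : 1 / (p : ℝ) ≤ (p : ℝ) ^ (-1 : ℝ) := by
            rw [Real.rpow_neg_one, one_div]
          exact h2
        · exact Or.inl le_rfl)
    rw [Fin.sum_univ_two] at hres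
    have h2 : (![q, 1 - q] : Fin 2 → ℝ) 0 * (![1, entropy ν / 2] : Fin 2 → ℝ) 0 +
        (![q, 1 - q] : Fin 2 → ℝ) 1 * (![1, entropy ν / 2] : Fin 2 → ℝ) 1 =
        q + (1 - q) * (entropy ν / 2) := by simp
    rw [h2] at hres
    exact hres
  · intro k m κ ν hm0 hν0 hν1 hmix hκ hK
    exact below_sums μ h0 h1 hlt m ν κ hm0 hν0 hν1 hmix hκ hK
  · intro b K hb hK hle
    exact below_var μ h0 h1 hlt b K hb hK hle
  · intro N a b K hb hK hμ hle
    refine below_var μ h0 h1 hlt b K hb hK (le_trans ?_ hle)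
    have hp1 : (1 : ℝ) < p := by exact_mod_cast (Fact.out : p.Prime).one_lt
    have hlog : 0 < Real.log p := Real.log_pos hp1
    have h2 : (0 : ℝ) ≤ (p : ℝ) / 2 * (1 + Real.log p) := by positivity
    have h3 := mul_le_mul_of_nonneg_right (var_ap μ N a b hb hμ) h2
    have h4 : 2 / (N : ℝ) * ((p : ℝ) / 2 * (1 + Real.log p)) = (p : ℝ) / N * (1 + Real.log p) := by
      ring
    linarith

end Pool.Agent.Results.MP_0a1886_pr.MediumFactors
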