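import Pool.Agent.MP0a1886.Cor
import Pool.Agent.MP0a1886.Var
import Pool.Agent.MP0a1886.Min.Full
import Pool.Agent.MP0a1886.Min.MixT

/-!
# The largest irreducible factor for convex combinations of coefficient laws

Let `μ = ∑ m_b ν_b` be a convex combination of laws on `F_p` and `t` in `[1, 2)`. Q1 holds for `μ`
if the geometric mean, with the weights `m_b`, of the numbers `sum over c of |ν_b^(c)| ^ t` is less
than `p ^ ((2 - t) / 6)`. The components may be arbitrary (each of these numbers is at most `p`);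
for instance Q1 holds if `μ(a) > 5 / (6 p)` for all `a`. Q1 also holds for every prime `p` and every
law with `p * (sum of μ(a)^2) ≤ 1 + 1/55`, for every `V < 4/27`, every prime `p ≥ p0(V)` and
every law with `p * (sum of μ(a)^2) ≤ 1 + V`, and for every `s > 5/6`, every prime `p ≥ p0(s)` and
every law whose variation `sum of |μ(a + b) - μ(a)|` along some step `b ≠ 0` is at most `p ^ (-s)`
(for instance the uniform law on an arithmetic progression with at least `2 p ^ s` terms).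
-/

set_option autoImplicit false
open Polynomial Filter

namespace Pool.Agent.Results.MP_0a1886_pr.MixtureLaws

/-- The probability, when `ε_0, ..., ε_n` are independent with law `μ`, that the polynomial
`ε_0 + ε_1 X + ... + ε_n X^n` satisfies `E`. -/
noncomputable def probIID {p : ℕ} [Fact p.Prime] (μ : ZMod p → ℝ) (n : ℕ)
    (E : (ZMod p)[X] → Prop) : ℝ := by
  classical
  exact ∑ ε : Fin (n + 1) → ZMod p,
    if E (∑ i : Fin (n + 1), C (ε i) * X ^ (i : ℕ)) then ∏ i, μ (ε i) else 0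

/-- The proportion of the permutations of `n` points all of whose cycles have length at most
`y`. -/
noncomputable def permProp (n : ℕ) (y : ℝ) : ℝ := by
  classical
  exact ((Finset.univ.filter (fun σ : Equiv.Perm (Fin n) =>
    ∀ k ∈ σ.cycleType, (k : ℝ) ≤ y)).card : ℝ) / (n.factorial : ℝ)

/-- The assertion of Q1 for `p` and `μ` (in the form of the frozen statement): for each
`0 < x < 1`, the probability that every irreducible factor of `f_n` has degree at most `x n` minus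
the probability that a uniform random permutation of `n` points has all cycles of length at most
`x n` tends to zero. -/
def SatisfiesQ1 (p : ℕ) [Fact p.Prime] (μ : ZMod p → ℝ) : Prop :=
  ∀ x : ℝ, 0 < x → x < 1 → Tendsto (fun n : ℕ =>
    probIID μ n (fun f => ∀ g : (ZMod p)[X], Irreducible g → g ∣ f →
      (g.natDegree : ℝ) ≤ x * (n : ℝ)) - permProp n (x * (n : ℝ))) atTop (nhds 0)

open Pool.Agent.MP0a1886

lemma probIID_eq {p : ℕ} [Fact p.Prime] (μ : ZMod p → ℝ) (n : ℕ) (E : (ZMod p)[X] → Prop) :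
    probIID μ n E = Pr μ n E := by
  classical
  rw [Pr_eq]
  unfold probIID
  apply Finset.sum_congr rfl
  intro ε _
  congr

lemma permProp_eq (n : ℕ) {y : ℝ} (hy : 0 ≤ y) : permProp n y = cperm n ⌊y⌋₊ := by
  classical
  unfold permProp cperm
  have h1 : (Finset.univ.filter (fun σ : Equiv.Perm (Fin n) =>
      ∀ k ∈ σ.cycleType, (k : ℝ) ≤ y)) =
      (Finset.univ.filter (fun σ : Equiv.Perm (Fin n) => ∀ k ∈ σ.cycleType, k ≤ ⌊y⌋₊)) := by
    ext σ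
    simp only [Finset.mem_filter, Finset.mem_univ, true_and]
    constructor
    · intro h k hk
      exact (Nat.le_floor_iff hy).2 (h k hk)
    · intro h k hk
      exact (Nat.le_floor_iff hy).1 (h k hk)
  have h2 : ((Finset.univ.filter (fun σ : Equiv.Perm (Fin n) =>
      ∀ k ∈ σ.cycleType, (k : ℝ) ≤ y)).card : ℝ) =
      ((Finset.univ.filter (fun σ : Equiv.Perm (Fin n) =>
        ∀ k ∈ σ.cycleType, k ≤ ⌊y⌋₊)).card : ℝ) := by
    rw [h1]
  have h3 : ∀ (a b : ℝ), a = b → a / (n.factorial : ℝ) = b / (n.factorial : ℝ) := by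
    rintro a b rfl
    rfl
  apply h3
  refine Eq.trans ?_ (h2.trans ?_) <;> congr

lemma q1_of_cmp {p : ℕ} [Fact p.Prime] (μ : ZMod p → ℝ)
    (hc : ∀ x : ℝ, 0 < x → ∀ ε : ℝ, 0 < ε → ∃ N : ℕ, ∀ n m : ℕ, N ≤ n → x * n ≤ m →
      |Pr μ n (Fac (fun d => d ≤ m)) - cperm n m| ≤ ε) : SatisfiesQ1 p μ := by
  intro x hx0 hx1
  rw [Metric.tendsto_atTop]
  intro ε hε
  obtain ⟨N1, hN1⟩ := hc (x / 2) (by positivity) (ε / 2) (by positivity)
  obtain ⟨N2, hN2⟩ := exists_nat_gt (2 / x)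
  refine ⟨max N1 N2, fun n hn => ?_⟩
  have hn1 : N1 ≤ n := (le_max_left _ _).trans hn
  have hn2 : (2 / x : ℝ) < n := hN2.trans_le (by exact_mod_cast (le_max_right _ _).trans hn)
  have hxn : 2 < x * n := by
    rw [div_lt_iff₀ hx0] at hn2
    linarith
  have hfl : x * n - 1 < ⌊x * (n : ℝ)⌋₊ := Nat.sub_one_lt_floor _
  have h2 := hN1 n ⌊x * (n : ℝ)⌋₊ hn1 (by linarith)
  rw [Real.dist_eq, sub_zero, permProp_eq n (by positivity), probIID_eq]
  have h3 : (fun f : (ZMod p)[X] => ∀ g : (ZMod p)[X], Irreducible g → g ∣ f →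
      (g.natDegree : ℝ) ≤ x * (n : ℝ)) = Fac (fun d => d ≤ ⌊x * (n : ℝ)⌋₊) := by
    funext f
    apply propext
    unfold Fac
    constructor
    · intro h g hg hgf
      exact (Nat.le_floor_iff (by positivity)).2 (h g hg hgf)
    · intro h g hg hgf
      exact (Nat.le_floor_iff (by positivity)).1 (h g hg hgf)
  rw [h3]
  linarith

lemma main {p : ℕ} [Fact p.Prime] (μ : ZMod p → ℝ) (h0 : ∀ a, 0 ≤ μ a) (h1 : ∑ a, μ a = 1)
    (hlt : ∀ a, μ a < 1) (hL : ∃ t : ℝ, 1 ≤ t ∧ t < 2 ∧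
      (∑ c, mw μ c ^ t) ^ 6 < (p : ℝ) ^ (2 - t)) : SatisfiesQ1 p μ := by
  obtain ⟨t, ht1, ht2, hL⟩ := hL
  exact q1_of_cmp μ (fun x hx => near_uniform μ h0 h1 hlt t ht1 ht2 hL x hx)

lemma main_min {p : ℕ} [Fact p.Prime] (μ : ZMod p → ℝ) (h1 : ∑ a, μ a = 1)
    (h : ∀ a, 5 / (6 * (p : ℝ)) < μ a) : SatisfiesQ1 p μ := by
  have hp0 : (0 : ℝ) < p := by exact_mod_cast (Fact.out : p.Prime).pos
  obtain ⟨a0, ha0⟩ := Finite.exists_min μ
  have h2 := h a0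
  rw [div_lt_iff₀ (by positivity)] at h2
  refine q1_of_cmp μ (fun x hx => full_cmp μ h1 (p * μ a0) (by linarith) (fun a => ?_) x hx)
  rw [mul_div_cancel_left₀ _ hp0.ne']
  exact ha0 a

/-- Q1 holds for convex combinations of laws with small exponential sums: there is a function `p0`
such that Q1 holds for every prime `p` and every law `μ` that is not a point mass and satisfies one
of the five conditions (a) `μ = ∑ m_b ν_b` is a convex combination of laws `ν_b` with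
`∏_b (∑ c, |ν_b^(c)| ^ t) ^ (6 m_b) < p ^ (2 - t)` for some `t` in `[1, 2)`, where `ν^(c)` is the sum
of `ν(a) e(a c / p)`; (b) `μ(a) > 5 / (6 p)` for all `a`; (c) `p * ∑ μ(a)^2 ≤ 1 + 1/55`;
(d) `p * ∑ μ(a)^2 ≤ 1 + V` and `p0 V ≤ p` for some `V < 4/27`; (e) `∑ |μ(a + b) - μ(a)| ≤ p ^ (-s)`
and `p0 s ≤ p` for some `s > 5/6` and some `b ≠ 0`. -/
theorem result : ∃ p0 : ℝ → ℕ, ∀ (p : ℕ) [Fact p.Prime] (μ : ZMod p → ℝ), (∀ a, 0 ≤ μ a) →
    ∑ a, μ a = 1 → (∀ a, μ a < 1) →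
    ((∃ (k : ℕ) (m : Fin k → ℝ) (ν : Fin k → ZMod p → ℝ) (t : ℝ), (∀ b, 0 ≤ m b) ∧
        (∀ b a, 0 ≤ ν b a) ∧ (∀ b, ∑ a, ν b a = 1) ∧ (∀ a, μ a = ∑ b, m b * ν b a) ∧
        1 ≤ t ∧ t < 2 ∧
        ∏ b, (∑ c : ZMod p, ‖∑ a : ZMod p, (ν b a : ℂ) * ZMod.stdAddChar (a * c)‖ ^ t) ^
          (6 * m b) < (p : ℝ) ^ (2 - t)) ∨
      (∀ a, 5 / (6 * (p : ℝ)) < μ a) ∨
      (p : ℝ) * ∑ a, μ a ^ 2 ≤ 1 + 1 / 55 ∨
      (∃ V : ℝ, V < 4 / 27 ∧ p0 V ≤ p ∧ (p : ℝ) * ∑ a, μ a ^ 2 ≤ 1 + V) ∨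
      ∃ (s : ℝ) (b : ZMod p), 5 / 6 < s ∧ p0 s ≤ p ∧ b ≠ 0 ∧
        ∑ a, |μ (a + b) - μ a| ≤ (p : ℝ) ^ (-s)) →
    SatisfiesQ1 p μ := by
  classical
  have key : ∀ V : ℝ, ∃ q0 : ℕ, V < 4 / 27 → ∀ p : ℕ, ∀ _ : Fact p.Prime, q0 ≤ p →
      ∀ μ : ZMod p → ℝ, ∑ a, μ a = 1 → (p : ℝ) * ∑ a, μ a ^ 2 ≤ 1 + V →
      ∃ t : ℝ, 1 ≤ t ∧ t < 2 ∧ (∑ c, mw μ c ^ t) ^ 6 < (p : ℝ) ^ (2 - t) := by
    intro V
    by_cases hV : V < 4 / 27
    · obtain ⟨q0, h⟩ := crit_large V hV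
      exact ⟨q0, fun _ => h⟩
    · exact ⟨0, fun h => absurd h hV⟩
  have key' : ∀ s : ℝ, ∃ q0 : ℕ, 5 / 6 < s → ∀ p : ℕ, ∀ _ : Fact p.Prime, q0 ≤ p →
      ∀ μ : ZMod p → ℝ, ∑ a, μ a = 1 → ∀ b : ZMod p, b ≠ 0 →
      ∑ a, |μ (a + b) - μ a| ≤ (p : ℝ) ^ (-s) →
      ∃ t : ℝ, 1 ≤ t ∧ t < 2 ∧ (∑ c, mw μ c ^ t) ^ 6 < (p : ℝ) ^ (2 - t) := by
    intro s
    by_cases hs : 5 / 6 < s
    · obtain ⟨q0, h⟩ := crit_var s hs
      exact ⟨q0, fun _ => h⟩
    · exact ⟨0, fun h => absurd h hs⟩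
  choose p1 hp1 using key
  choose p2 hp2 using key'
  refine ⟨fun x => max (p1 x) (p2 x), ?_⟩
  intro p hp μ h0 h1 hlt hcond
  rcases hcond with ⟨k, m, ν, t, hm0, hν0, hν1, hmix, ht1, ht2, hL⟩ | h | h | ⟨V, hV, hpV, h⟩ |
    ⟨s, b, hs, hps, hb, h⟩
  · exact q1_of_cmp μ (fun x hx =>
      mixture_cmp μ h0 h1 hlt m ν hm0 hν0 hν1 hmix t ht1 ht2 hL x hx)
  · exact main_min μ h1 h
  · exact main μ h0 h1 hlt (crit_abs μ h1 h)
  · exact main μ h0 h1 hlt (hp1 V hV p hp ((le_max_left _ _).trans hpV) μ h1 h)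
  · exact main μ h0 h1 hlt (hp2 s hs p hp ((le_max_right _ _).trans hps) μ h1 b hb h)

end Pool.Agent.Results.MP_0a1886_pr.MixtureLaws
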