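import Pool.Agent.MP0a1886.TV

/-!
# Small factors of random polynomials over `F_p`: universality up to degree `o(n)`

For every prime `p` and every law `μ` on `F_p` that is not a point mass, the set of all monic
irreducible factors (other than `X`) of degree at most `m` of `f_n = sum of ε_i x^i` (iid `ε_i`)
is within `C * exp (-c * min (n / m) (sqrt n))` in total variation of the same set for a uniformly
random monic polynomial of degree `n`, for all `1 ≤ m ≤ n`. In particular the distance tends to
zero for every `m = m(n) = o(n)`.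
-/

set_option autoImplicit false
open Polynomial

namespace Pool.Agent.Results.MP_0a1886_pr.SmallFactors

/-- The probability, when `ε_0, ..., ε_n` are independent with law `μ`, that the polynomial
`ε_0 + ε_1 X + ... + ε_n X^n` satisfies `E`. -/
noncomputable def probIID {p : ℕ} [Fact p.Prime] (μ : ZMod p → ℝ) (n : ℕ)
    (E : (ZMod p)[X] → Prop) : ℝ := by
  classical
  exact ∑ ε : Fin (n + 1) → ZMod p,
    if E (∑ i : Fin (n + 1), C (ε i) * X ^ (i : ℕ)) then ∏ i, μ (ε i) else 0

/-- The probability that a uniformly random monic polynomial of degree `n` satisfies `E`. -/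
noncomputable def probUniform (p : ℕ) [Fact p.Prime] (n : ℕ) (E : (ZMod p)[X] → Prop) : ℝ := by
  classical
  exact ((Finset.univ.filter fun a : Fin n → ZMod p =>
    E (X ^ n + ∑ i : Fin n, C (a i) * X ^ (i : ℕ))).card : ℝ) / (p : ℝ) ^ n

/-- The monic irreducible factors of `f` of degree at most `m`, the polynomial `X` excluded. -/
def smallFactors {p : ℕ} [Fact p.Prime] (m : ℕ) (f : (ZMod p)[X]) : Set (ZMod p)[X] :=
  {P | P.Monic ∧ Irreducible P ∧ P.natDegree ≤ m ∧ P ≠ X ∧ P ∣ f}

/-- `N_i(f)`: the number of distinct monic irreducible factors of degree `i`, the factor `X` not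
counted. -/
noncomputable def numFactors {p : ℕ} [Fact p.Prime] (f : (ZMod p)[X]) (i : ℕ) : ℕ :=
  Set.ncard {P : (ZMod p)[X] | P.Monic ∧ Irreducible P ∧ P.natDegree = i ∧ P ≠ X ∧ P ∣ f}

open Pool.Agent.MP0a1886

lemma coe_facs {p : ℕ} [Fact p.Prime] (m : ℕ) (f : (ZMod p)[X]) :
    (facs (prs p 0 m) f : Set (ZMod p)[X]) = smallFactors m f := by
  classical
  ext P
  unfold facs smallFactors
  simp only [Finset.coe_filter, Set.mem_ofPred_eq]
  rw [mem_prs]
  constructor
  · rintro ⟨⟨h1, h2, h3, h4, h5⟩, h6⟩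
    exact ⟨h4, h5, h3, h1, h6⟩
  · rintro ⟨h4, h5, h3, h1, h6⟩
    exact ⟨⟨h1, h5.natDegree_pos, h3, h4, h5⟩, h6⟩

lemma probIID_eq {p : ℕ} [Fact p.Prime] (μ : ZMod p → ℝ) (n : ℕ) (E : (ZMod p)[X] → Prop) :
    probIID μ n E = Pr μ n E := by
  classical
  rw [Pr_eq]
  unfold probIID
  apply Finset.sum_congr rfl
  intro ε _
  congr

lemma probUniform_eq {p : ℕ} [hp : Fact p.Prime] (n : ℕ) (E : (ZMod p)[X] → Prop) :
    probUniform p n E = PrU p n E := by
  classical
  rw [PrU_eq]
  unfold probUniform
  rw [← Finset.sum_filter, Finset.sum_const, nsmul_eq_mul, div_eq_mul_inv]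
  congr

/-- For every prime `p` and every law `μ` on `F_p` that is not a point mass there are `C, c > 0`
such that for all `1 ≤ m ≤ n` the total variation distance between the sets of small irreducible
factors (degree at most `m`) of `f_n` and of a uniform monic polynomial of degree `n` is at most
`C * exp (-c * min (n / m) (sqrt n))`; the same holds for the vectors `(N_i)_{1 ≤ i ≤ m}`. -/
theorem result (p : ℕ) [Fact p.Prime] (μ : ZMod p → ℝ) (h0 : ∀ a, 0 ≤ μ a)
    (h1 : ∑ a, μ a = 1) (hlt : ∀ a, μ a < 1) :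
    ∃ C c : ℝ, 0 < C ∧ 0 < c ∧ ∀ n m : ℕ, 1 ≤ m → m ≤ n →
      (∀ E : Set (Set (ZMod p)[X]),
        |probIID μ n (fun f => smallFactors m f ∈ E) -
          probUniform p n (fun f => smallFactors m f ∈ E)| ≤
          C * Real.exp (-(c * min ((n : ℝ) / m) (Real.sqrt n)))) ∧
      (∀ E : Set (Fin m → ℕ),
        |probIID μ n (fun f => (fun i : Fin m => numFactors f (i + 1)) ∈ E) -
          probUniform p n (fun f => (fun i : Fin m => numFactors f (i + 1)) ∈ E)| ≤
          C * Real.exp (-(c * min ((n : ℝ) / m) (Real.sqrt n)))) := by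
  obtain ⟨C, c, hC, hc, h⟩ := tv_random μ h0 h1 hlt
  refine ⟨C, c, hC, hc, ?_⟩
  intro n m hm hmn
  have key : ∀ E : Set (Set (ZMod p)[X]),
        |probIID μ n (fun f => smallFactors m f ∈ E) -
          probUniform p n (fun f => smallFactors m f ∈ E)| ≤
          C * Real.exp (-(c * min ((n : ℝ) / m) (Real.sqrt n))) := by
    intro E
    have h2 := h n m hm hmn E
    simp_rw [coe_facs] at h2
    rw [probIID_eq, probUniform_eq]
    exact h2
  refine ⟨key, ?_⟩
  intro E
  have h3 : ∀ f : (ZMod p)[X], (fun i : Fin m => numFactors f (i + 1))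
      = (fun S : Set (ZMod p)[X] => fun i : Fin m =>
          Set.ncard {P | P ∈ S ∧ P.natDegree = (i : ℕ) + 1}) (smallFactors m f) := by
    intro f
    funext i
    unfold numFactors smallFactors
    congr 1
    ext P
    simp only [Set.mem_ofPred_eq]
    constructor
    · rintro ⟨a1, a2, a3, a4, a5⟩
      exact ⟨⟨a1, a2, by have := i.2; omega, a4, a5⟩, a3⟩
    · rintro ⟨⟨a1, a2, _, a4, a5⟩, a3⟩
      exact ⟨a1, a2, a3, a4, a5⟩
  have h4 := key {S | (fun i : Fin m =>
          Set.ncard {P | P ∈ S ∧ P.natDegree = (i : ℕ) + 1}) ∈ E}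
  simp only [Set.mem_ofPred_eq] at h4
  simp_rw [h3]
  exact h4

end Pool.Agent.Results.MP_0a1886_pr.SmallFactors
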